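import Pool.Agent.Helper74.FP.Goals

/-!
# Project FP, packet F1: inversion maps the right Cayley graph to the left one
-/

set_option autoImplicit false

namespace Pool.Agent.Helper59.FP

open Pool.Agent.Helper52.Wq2 Pool.Agent.Helper74.FP

universe u

theorem adj_inv {Γ : Type u} [Group Γ] (S : Set Γ) (a b : Γ) :
    (cayL S).Adj a⁻¹ b⁻¹ ↔ (cay S).Adj a b := by
  unfold cayL cay
  rw [SimpleGraph.fromRel_adj, SimpleGraph.fromRel_adj, inv_inv, inv_inv, Ne, inv_inj]
  exact and_congr_right fun _ => or_comm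

theorem f1 : F1Stmt.{u} := by
  intro Γ _ S _
  exact ⟨⟨Equiv.inv Γ, fun {a b} => adj_inv S a b⟩, fun x => rfl⟩

end Pool.Agent.Helper59.FP
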