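import Pool.Agent.Helper74.FP.Goals

/-!
# Project FP, packet F4: minors of free products
-/

set_option autoImplicit false

namespace Pool.Agent.Helper59.FP

open Pool.Agent.Helper52.Wq2 Pool.Agent.Helper74.FP Monoid Monoid.CoprodI

universe u

theorem conn_of_common {V : Type*} {G : SimpleGraph V} {s : Set V} {p : V} (hp : p ∈ s)
    (h : ∀ x ∈ s, ∃ t ⊆ s, Conn G t ∧ p ∈ t ∧ x ∈ t) : Conn G s := by
  refine ⟨⟨p, hp⟩, ?_⟩
  intro A hA hne hcl
  have key : ∀ t ⊆ s, Conn G t → (A ∩ t).Nonempty → t ⊆ A := by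
    intro t hts ht hn x hx
    exact (ht.2 (A ∩ t) Set.inter_subset_right hn
      (fun y hy z hz hyz => ⟨hcl y hy.1 z (hts hz) hyz, hz⟩) hx).1
  have hpA : p ∈ A := by
    obtain ⟨x, hx⟩ := hne
    obtain ⟨t, hts, ht, hpt, hxt⟩ := h x (hA hx)
    exact key t hts ht ⟨x, hx, hxt⟩ hpt
  intro y hy
  obtain ⟨t, hts, ht, hpt, hyt⟩ := h y hy
  exact key t hts ht ⟨p, hpA, hpt⟩ hyt

variable {ι : Type} {A B : ι → Type u} [∀ i, Group (A i)] [∀ i, Group (B i)]

/-- Letterwise. -/
def lt (r : ∀ i, A i → B i) (l : Σ i, A i) : Σ i, B i := ⟨l.1, r l.1 l.2⟩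

/-- The map on reduced words. -/
def mp (r : ∀ i, A i → B i) (hr : ∀ i a, a ≠ 1 → r i a ≠ 1) (w : Word A) : Word B where
  toList := w.toList.map (lt r)
  ne_one := by
    intro l hl
    obtain ⟨l', hl', rfl⟩ := List.mem_map.1 hl
    exact hr _ _ (w.ne_one l' hl')
  chain_ne := by
    rw [List.isChain_map]
    exact w.chain_ne

variable {r : ∀ i, A i → B i} {hr : ∀ i a, a ≠ 1 → r i a ≠ 1}

theorem fst_mp (w : Word A) : (mp r hr w).fstIdx = w.fstIdx := by
  unfold Word.fstIdx mp
  simp only [List.head?_map, Option.map_map]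
  rfl

theorem mp_inj (hi : ∀ i, Function.Injective (r i)) : Function.Injective (mp r hr) := by
  intro w w' h
  have h1 : w.toList.map (lt r) = w'.toList.map (lt r) := congrArg Word.toList h
  have h2 : Function.Injective (lt r) := by
    rintro ⟨i, a⟩ ⟨j, b⟩ hab
    unfold lt at hab
    have hij : i = j := congrArg Sigma.fst hab
    subst hij
    have hab' : a = b := hi i (eq_of_heq (Sigma.mk.inj hab).2)
    rw [hab']
  exact Word.ext (List.map_injective_iff.2 h2 h1)

section
variable [DecidableEq ι] [∀ i, DecidableEq (A i)] [∀ i, DecidableEq (B i)]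

theorem mp_rcons (h1 : ∀ i, r i 1 = 1) {i : ι} (p : Word.Pair A i) :
    mp r hr (Word.rcons p) = Word.rcons ⟨r i p.head, mp r hr p.tail, by
      rw [fst_mp]; exact p.fstIdx_ne⟩ := by
  unfold Word.rcons
  by_cases hp : p.head = 1
  · rw [dif_pos hp, dif_pos (by rw [hp]; exact h1 i)]
  · rw [dif_neg hp, dif_neg (hr i _ hp)]
    rfl

theorem pair_mp (h1 : ∀ i, r i 1 = 1) (i : ι) (w : Word A) :
    Word.equivPair i (mp r hr w) = ⟨r i (Word.equivPair i w).head,
      mp r hr (Word.equivPair i w).tail, by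
        rw [fst_mp]; exact (Word.equivPair i w).fstIdx_ne⟩ := by
  rw [← Equiv.eq_symm_apply, Word.equivPair_symm, ← mp_rcons h1,
    ← Word.equivPair_symm, Equiv.symm_apply_apply]

/-- One piece of the branch set. -/
def piece (r : ∀ i, A i → B i) (hr : ∀ i a, a ≠ 1 → r i a ≠ 1) (V : ∀ i, A i → Set (B i))
    (i : ι) (w : Word A) : Set (Word B) :=
  {x | (Word.equivPair i x).tail = mp r hr (Word.equivPair i w).tail ∧
    (Word.equivPair i x).head ∈ V i (Word.equivPair i w).head}

variable {V : ∀ i, A i → Set (B i)}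

theorem mp_mem (h1 : ∀ i, r i 1 = 1) (hV : ∀ i a, r i a ∈ V i a) (i : ι) (w : Word A) :
    mp r hr w ∈ piece r hr V i w := by
  unfold piece
  rw [Set.mem_ofPred_eq, pair_mp h1]
  exact ⟨rfl, hV i _⟩

theorem piece_inj (hi : ∀ i, Function.Injective (r i))
    (hd : ∀ i a a' x, x ∈ V i a → x ∈ V i a' → a = a') {i : ι} {w w' : Word A} {x : Word B}
    (h : x ∈ piece r hr V i w) (h' : x ∈ piece r hr V i w') : w = w' := by
  have e1 := mp_inj (hr := hr) hi (h.1.symm.trans h'.1)
  have e2 := hd i _ _ _ h.2 h'.2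
  exact (Word.equivPair i).injective (Word.Pair.ext e2 e1)

theorem piece_fst (hd : ∀ i a a' x, x ∈ V i a → x ∈ V i a' → a = a')
    (hV1 : ∀ i, (1 : B i) ∈ V i 1) {i : ι} {w : Word A} {x : Word B}
    (h : x ∈ piece r hr V i w) (hx : x.fstIdx ≠ some i) : x = mp r hr w := by
  unfold piece at h
  rw [Set.mem_ofPred_eq, Word.equivPair_eq_of_fstIdx_ne hx] at h
  have e1 := hd i _ _ _ h.2 (hV1 i)
  have e2 : (Word.equivPair i w).tail = w := by
    have := (Word.equivPair i).symm_apply_apply w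
    rw [Word.equivPair_symm, Word.rcons, dif_pos e1] at this
    exact this
  rw [e2] at h
  exact h.1

/-- The branch sets, as sets of reduced words. -/
def Br (r : ∀ i, A i → B i) (hr : ∀ i a, a ≠ 1 → r i a ≠ 1) (V : ∀ i, A i → Set (B i))
    (w : Word A) : Set (Word B) :=
  {x | x = mp r hr w ∨ ∃ i, x ∈ piece r hr V i w}

theorem br_inj (h1 : ∀ i, r i 1 = 1) (hV : ∀ i a, r i a ∈ V i a)
    (hi : ∀ i, Function.Injective (r i))
    (hd : ∀ i a a' x, x ∈ V i a → x ∈ V i a' → a = a')
    (hV1 : ∀ i, (1 : B i) ∈ V i 1) {w w' : Word A} {x : Word B}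
    (h : x ∈ Br r hr V w) (h' : x ∈ Br r hr V w') : w = w' := by
  rcases h with h | ⟨i, h⟩
  · rcases h' with h' | ⟨j, h'⟩
    · exact mp_inj hi (h.symm.trans h')
    · subst h
      exact piece_inj hi hd (mp_mem h1 hV j w) h'
  · rcases h' with h' | ⟨j, h'⟩
    · subst h'
      exact piece_inj hi hd h (mp_mem h1 hV i w')
    · by_cases hij : x.fstIdx = some i
      · by_cases hj : x.fstIdx = some j
        · have : i = j := Option.some_injective _ (hij.symm.trans hj)
          subst this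
          exact piece_inj hi hd h h'
        · have := piece_fst hd hV1 h' hj
          subst this
          exact piece_inj hi hd h (mp_mem h1 hV i w')
      · have := piece_fst hd hV1 h hij
        subst this
        exact piece_inj hi hd (mp_mem h1 hV j w) h'

end

theorem adjL {T : ∀ i, Set (B i)} {i : ι} {a b : B i} (y : CoprodI B)
    (h : (cayL (T i)).Adj a b) : (cayL (US T)).Adj (of a * y) (of b * y) := by
  unfold cayL at h ⊢
  rw [SimpleGraph.fromRel_adj] at h ⊢
  refine ⟨fun he => h.1 (of_injective i (mul_right_cancel he)), ?_⟩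
  rcases h.2 with h2 | h2
  · left
    refine ⟨i, _, h2, ?_⟩
    rw [map_mul, map_inv]
    group
  · right
    refine ⟨i, _, h2, ?_⟩
    rw [map_mul, map_inv]
    group

theorem f4 : F4Stmt.{u} := by
  classical
  intro ι A B _ _ S T V hS hT hM hV1
  have hd : ∀ i a a' x, x ∈ V i a → x ∈ V i a' → a = a' := fun i a a' x h h' =>
    (hM i).2.1 a a' x h h'
  obtain ⟨r, hrdef⟩ : ∃ r : ∀ i, A i → B i, r = fun i a =>
    if a = 1 then 1 else ((hM i).1 a).1.some := ⟨_, rfl⟩
  have h1 : ∀ i, r i 1 = 1 := by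
    intro i
    rw [hrdef]
    exact if_pos rfl
  have hV : ∀ i a, r i a ∈ V i a := by
    intro i a
    by_cases ha : a = 1
    · rw [ha, h1]
      exact hV1 i
    · rw [hrdef]
      simp only [if_neg ha]
      exact ((hM i).1 a).1.some_mem
  have hi : ∀ i, Function.Injective (r i) := by
    intro i a b hab
    have e1 := hV i a
    rw [hab] at e1
    exact hd i _ _ _ e1 (hV i b)
  have hr : ∀ i a, a ≠ 1 → r i a ≠ 1 := by
    intro i a ha h
    exact ha (hi i (h.trans (h1 i).symm))
  -- membership in a piece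
  have hmem : ∀ (i : ι) (w : Word A) (b : B i), b ∈ V i (Word.equivPair i w).head →
      of b * Word.prod (mp r hr (Word.equivPair i w).tail) ∈
        Word.prod '' (piece r hr V i w) := by
    intro i w b hb
    refine ⟨Word.rcons ⟨b, mp r hr (Word.equivPair i w).tail, by
      rw [fst_mp]; exact (Word.equivPair i w).fstIdx_ne⟩, ?_, ?_⟩
    · unfold piece
      rw [Set.mem_ofPred_eq, ← Word.equivPair_symm, Equiv.apply_symm_apply]
      exact ⟨rfl, hb⟩
    · rw [Word.prod_rcons]
  have hpiece : ∀ (i : ι) (w : Word A), Word.prod '' (piece r hr V i w) =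
      (fun b => of b * Word.prod (mp r hr (Word.equivPair i w).tail)) ''
        V i (Word.equivPair i w).head := by
    intro i w
    ext y
    constructor
    · rintro ⟨x, hx, rfl⟩
      refine ⟨_, hx.2, ?_⟩
      simp only
      rw [← hx.1, ← Word.prod_rcons, ← Word.equivPair_symm, Equiv.symm_apply_apply]
    · rintro ⟨b, hb, rfl⟩
      exact hmem i w b hb
  have hconn : ∀ w : Word A, Conn (cayL (US T)) (Word.prod '' (Br r hr V w)) := by
    intro w
    refine conn_of_common (p := Word.prod (mp r hr w)) ⟨_, Or.inl rfl, rfl⟩ ?_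
    rintro _ ⟨x, hx, rfl⟩
    rcases hx with rfl | ⟨i, hx⟩
    · refine ⟨{Word.prod (mp r hr w)}, ?_, conn_singleton _ _, rfl, rfl⟩
      rintro _ rfl
      exact ⟨_, Or.inl rfl, rfl⟩
    · refine ⟨Word.prod '' (piece r hr V i w), Set.image_mono fun x hx => Or.inr ⟨i, hx⟩, ?_,
        ⟨_, mp_mem h1 hV i w, rfl⟩, ⟨x, hx, rfl⟩⟩
      rw [hpiece]
      exact ((hM i).1 _).image _ fun a _ b _ hab => Or.inr (adjL _ hab)
  have hedge : ∀ (g : CoprodI A) (i : ι) (s : A i), s ∈ S i →
      ∃ a ∈ Word.prod '' (Br r hr V (Word.equiv g)),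
        ∃ b ∈ Word.prod '' (Br r hr V (Word.equiv (of s * g))), (cayL (US T)).Adj a b := by
    intro g i s hs
    have e1 : Word.equiv (of s * g) = of s • Word.equiv g := by
      show (of s * g) • (Word.empty : Word A) = of s • (g • (Word.empty : Word A))
      rw [mul_smul]
    have e2 := Word.equivPair_smul_same s (Word.equiv g)
    rw [← e1] at e2
    have hadj : (cayL (S i)).Adj (Word.equivPair i (Word.equiv g)).head
        (s * (Word.equivPair i (Word.equiv g)).head) := by
      unfold cayL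
      rw [SimpleGraph.fromRel_adj]
      refine ⟨fun he => (hS i).2.2 ?_, Or.inl ?_⟩
      · have h0 : s = 1 := right_eq_mul.1 he
        rwa [h0] at hs
      · rwa [mul_inv_cancel_right]
    obtain ⟨a, ha, b, hb, hab⟩ := (hM i).2.2 _ _ hadj
    have ma := hmem i (Word.equiv g) a ha
    have mb := hmem i (Word.equiv (of s * g)) b (by rw [e2]; exact hb)
    rw [e2] at mb
    exact ⟨_, Set.image_mono (fun x hx => Or.inr ⟨i, hx⟩) ma, _,
      Set.image_mono (fun x hx => Or.inr ⟨i, hx⟩) mb, adjL _ hab⟩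
  refine ⟨fun g => Word.prod '' (Br r hr V (Word.equiv g)), fun g => hconn _, ?_, ?_⟩
  · rintro g g' _ ⟨x, hx, rfl⟩ ⟨x', hx', he⟩
    have : x' = x := Word.equiv.symm.injective he
    subst this
    exact Word.equiv.injective (br_inj h1 hV hi hd hV1 hx hx')
  · intro g g' hgg
    unfold cayL at hgg
    rw [SimpleGraph.fromRel_adj] at hgg
    rcases hgg.2 with ⟨i, s, hs, he⟩ | ⟨i, s, hs, he⟩
    · have : g' = of s * g := by rw [← he]; group
      rw [this]
      exact hedge g i s hs
    · have : g = of s * g' := by rw [← he]; group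
      rw [this]
      obtain ⟨a, ha, b, hb, hab⟩ := hedge g' i s hs
      exact ⟨b, hb, a, ha, hab.symm⟩

end Pool.Agent.Helper59.FP
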